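import Mathlib

/-!
# Arithmetic expressions with determinants
-/

set_option autoImplicit false

namespace Pool.Agent.J6H27.DT

open Finset

/-- arithmetic expressions in the variables `x_i`, `i : Fin n`, with constants in `F`, built with
`+`, `-`, `×` and determinants of any order -/
inductive DExpr (F : Type*) (n : ℕ)
  | const (c : F) : DExpr F n
  | var (i : Fin n) : DExpr F n
  | add (a b : DExpr F n) : DExpr F n
  | sub (a b : DExpr F n) : DExpr F n
  | mul (a b : DExpr F n) : DExpr F n
  | det (N : ℕ) (M : Fin N → Fin N → DExpr F n) : DExpr F n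

namespace DExpr

variable {F : Type*} {n : ℕ}

/-- the value of an expression -/
noncomputable def ev [Field F] {T : Type*} [CommRing T] [Algebra F T] (ρ : Fin n → T) :
    DExpr F n → T
  | const c => algebraMap F T c
  | var i => ρ i
  | add a b => ev ρ a + ev ρ b
  | sub a b => ev ρ a - ev ρ b
  | mul a b => ev ρ a * ev ρ b
  | det _ M => Matrix.det (Matrix.of fun i j => ev ρ (M i j))

/-- the number of the leaves labelled by variables in `J` -/
def occ (J : Fin n → Prop) [DecidablePred J] : DExpr F n → ℕ
  | const _ => 0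
  | var i => if J i then 1 else 0
  | add a b => occ J a + occ J b
  | sub a b => occ J a + occ J b
  | mul a b => occ J a + occ J b
  | det _ M => ∑ i, ∑ j, occ J (M i j)

/-- the variable occurs -/
def Occurs (i : Fin n) : DExpr F n → Prop
  | const _ => False
  | var j => j = i
  | add a b => Occurs i a ∨ Occurs i b
  | sub a b => Occurs i a ∨ Occurs i b
  | mul a b => Occurs i a ∨ Occurs i b
  | det _ M => ∃ a b, Occurs i (M a b)

/-- all determinants have order at most `D` -/
def OrderLe (D : ℕ) : DExpr F n → Prop
  | const _ => True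
  | var _ => True
  | add a b => OrderLe D a ∧ OrderLe D b
  | sub a b => OrderLe D a ∧ OrderLe D b
  | mul a b => OrderLe D a ∧ OrderLe D b
  | det N M => N ≤ D ∧ ∀ a b, OrderLe D (M a b)

lemma ev_congr [Field F] {T : Type*} [CommRing T] [Algebra F T] {ρ ρ' : Fin n → T} (E : DExpr F n)
    (h : ∀ i, Occurs i E → ρ i = ρ' i) : ev ρ E = ev ρ' E := by
  induction E with
  | const c => rfl
  | var i => exact h i rfl
  | add a b iha ihb =>
    simp only [ev]
    rw [iha fun i hi => h i (Or.inl hi), ihb fun i hi => h i (Or.inr hi)]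
  | sub a b iha ihb =>
    simp only [ev]
    rw [iha fun i hi => h i (Or.inl hi), ihb fun i hi => h i (Or.inr hi)]
  | mul a b iha ihb =>
    simp only [ev]
    rw [iha fun i hi => h i (Or.inl hi), ihb fun i hi => h i (Or.inr hi)]
  | det N M ih =>
    simp only [ev]
    congr 1
    ext i j
    simp only [Matrix.of_apply]
    exact ih i j fun v hv => h v ⟨i, j, hv⟩

lemma map_ev [Field F] {T T' : Type*} [CommRing T] [Algebra F T] [CommRing T'] [Algebra F T']
    (φ : T →ₐ[F] T') (ρ : Fin n → T) (E : DExpr F n) :
    φ (ev ρ E) = ev (fun i => φ (ρ i)) E := by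
  induction E with
  | const c => exact φ.commutes c
  | var i => rfl
  | add a b iha ihb => simp only [ev, map_add, iha, ihb]
  | sub a b iha ihb => simp only [ev, map_sub, iha, ihb]
  | mul a b iha ihb => simp only [ev, map_mul, iha, ihb]
  | det N M ih =>
    simp only [ev]
    rw [AlgHom.map_det]
    congr 1
    ext i j
    simp only [AlgHom.mapMatrix_apply, Matrix.map_apply, Matrix.of_apply]
    exact ih i j

lemma occ_mono {J J' : Fin n → Prop} [DecidablePred J] [DecidablePred J'] (E : DExpr F n)
    (h : ∀ i, J i → J' i) : occ J E ≤ occ J' E := by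
  induction E with
  | const c => exact le_rfl
  | var i =>
    simp only [occ]
    by_cases hi : J i
    · rw [if_pos hi, if_pos (h i hi)]
    · rw [if_neg hi]
      exact Nat.zero_le _
  | add a b iha ihb => exact add_le_add iha ihb
  | sub a b iha ihb => exact add_le_add iha ihb
  | mul a b iha ihb => exact add_le_add iha ihb
  | det N M ih => exact Finset.sum_le_sum fun i _ => Finset.sum_le_sum fun j _ => ih i j

lemma occ_pos {J : Fin n → Prop} [DecidablePred J] (E : DExpr F n) {i : Fin n} (hi : J i)
    (h : Occurs i E) : 1 ≤ occ J E := by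
  induction E with
  | const c => exact absurd h id
  | var j =>
    have hj : j = i := h
    subst hj
    simp only [occ]
    rw [if_pos hi]
  | add a b iha ihb =>
    rcases h with h | h
    · exact le_add_right (iha h)
    · exact le_add_left (ihb h)
  | sub a b iha ihb =>
    rcases h with h | h
    · exact le_add_right (iha h)
    · exact le_add_left (ihb h)
  | mul a b iha ihb =>
    rcases h with h | h
    · exact le_add_right (iha h)
    · exact le_add_left (ihb h)
  | det N M ih =>
    obtain ⟨a, b, hab⟩ := h
    simp only [occ]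
    have h1 : occ J (M a b) ≤ ∑ j, occ J (M a j) :=
      Finset.single_le_sum (f := fun j => occ J (M a j)) (fun _ _ => Nat.zero_le _)
        (Finset.mem_univ b)
    have h2 : ∑ j, occ J (M a j) ≤ ∑ i, ∑ j, occ J (M i j) :=
      Finset.single_le_sum (f := fun i => ∑ j, occ J (M i j)) (fun _ _ => Nat.zero_le _)
        (Finset.mem_univ a)
    exact (ih a b hab).trans (h1.trans h2)

lemma occurs_of_occ {J : Fin n → Prop} [DecidablePred J] (E : DExpr F n) (h : occ J E ≠ 0) :
    ∃ i, J i ∧ Occurs i E := by
  induction E with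
  | const c => exact absurd rfl h
  | var j =>
    simp only [occ] at h
    by_cases hj : J j
    · exact ⟨j, hj, rfl⟩
    · rw [if_neg hj] at h
      exact absurd rfl h
  | add a b iha ihb =>
    simp only [occ] at h
    by_cases h1 : occ J a = 0
    · obtain ⟨i, hi, hi'⟩ := ihb (by omega)
      exact ⟨i, hi, Or.inr hi'⟩
    · obtain ⟨i, hi, hi'⟩ := iha h1
      exact ⟨i, hi, Or.inl hi'⟩
  | sub a b iha ihb =>
    simp only [occ] at h
    by_cases h1 : occ J a = 0
    · obtain ⟨i, hi, hi'⟩ := ihb (by omega)
      exact ⟨i, hi, Or.inr hi'⟩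
    · obtain ⟨i, hi, hi'⟩ := iha h1
      exact ⟨i, hi, Or.inl hi'⟩
  | mul a b iha ihb =>
    simp only [occ] at h
    by_cases h1 : occ J a = 0
    · obtain ⟨i, hi, hi'⟩ := ihb (by omega)
      exact ⟨i, hi, Or.inr hi'⟩
    · obtain ⟨i, hi, hi'⟩ := iha h1
      exact ⟨i, hi, Or.inl hi'⟩
  | det N M ih =>
    simp only [occ] at h
    obtain ⟨a, _, ha⟩ := Finset.exists_ne_zero_of_sum_ne_zero h
    obtain ⟨b, _, hb⟩ := Finset.exists_ne_zero_of_sum_ne_zero ha
    obtain ⟨i, hi, hi'⟩ := ih a b hb
    exact ⟨i, hi, ⟨a, b, hi'⟩⟩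

lemma occ_eq_sum (J : Fin n → Prop) [DecidablePred J] (E : DExpr F n) :
    occ J E = ∑ i ∈ univ.filter J, occ (fun j => j = i) E := by
  induction E with
  | const c => simp [occ]
  | var i =>
    simp only [occ]
    rw [Finset.sum_ite_eq]
    simp
  | add a b iha ihb => simp only [occ, Finset.sum_add_distrib, ← iha, ← ihb]
  | sub a b iha ihb => simp only [occ, Finset.sum_add_distrib, ← iha, ← ihb]
  | mul a b iha ihb => simp only [occ, Finset.sum_add_distrib, ← iha, ← ihb]
  | det N M ih =>
    simp only [occ]
    rw [Finset.sum_comm]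
    conv_rhs =>
      rw [Finset.sum_comm]
    rw [Finset.sum_comm]
    refine Finset.sum_congr rfl fun a _ => ?_
    rw [Finset.sum_comm]
    exact Finset.sum_congr rfl fun b _ => ih a b

end DExpr

end Pool.Agent.J6H27.DT
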