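import Mathlib

/-!
# Determinants with few live entries
-/

set_option autoImplicit false

namespace Pool.Agent.J6H27.DT

open Finset Matrix

section

variable {K R : Type*} [Field K] [CommRing R] [Algebra K R] {N : ℕ} {L : Type*} [Fintype L]

/-- the matrix with the entries `x l` at the positions `(a l, b l)` -/
def live (a b : L → Fin N) (x : L → R) : Matrix (Fin N) (Fin N) R :=
  Matrix.of fun i j => ∑ l, if a l = i ∧ b l = j then x l else 0

lemma live_add (a b : L → Fin N) (x y : L → R) : live a b (x + y) = live a b x + live a b y := by
  ext i j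
  simp only [live, Matrix.of_apply, Matrix.add_apply, Pi.add_apply, ← Finset.sum_add_distrib]
  refine Finset.sum_congr rfl fun l _ => ?_
  split_ifs <;> simp

lemma live_map {R' : Type*} [CommRing R'] (φ : R →+* R') (a b : L → Fin N) (x : L → R) :
    (live a b x).map φ = live a b (fun l => φ (x l)) := by
  ext i j
  simp only [live, Matrix.of_apply, Matrix.map_apply, map_sum]
  refine Finset.sum_congr rfl fun l _ => ?_
  split_ifs <;> simp

variable [DecidableEq L]

/-- **Schur complement.** -/
theorem det_live (A : Matrix (Fin N) (Fin N) K) (hA : A.det ≠ 0) (a b : L → Fin N) (x : L → R) :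
    (A.map (algebraMap K R) + live a b x).det = algebraMap K R A.det *
      (1 + Matrix.of fun l l' => x l * algebraMap K R (A⁻¹ (b l) (a l'))).det := by
  have hu : IsUnit A.det := isUnit_iff_ne_zero.2 hA
  let P : Matrix (Fin N) L R := Matrix.of fun i l => if a l = i then 1 else 0
  let Q : Matrix L (Fin N) R := Matrix.of fun l j => if b l = j then x l else 0
  have hPQ : live a b x = P * Q := by
    ext i j
    simp only [live, Matrix.of_apply, Matrix.mul_apply, P, Q]
    refine Finset.sum_congr rfl fun l _ => ?_
    by_cases h1 : a l = i <;> by_cases h2 : b l = j <;> simp [h1, h2]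
  have hinv : A.map (algebraMap K R) * A⁻¹.map (algebraMap K R) = 1 := by
    rw [← Matrix.map_mul, Matrix.mul_nonsing_inv _ hu]
    exact Matrix.map_one _ (map_zero _) (map_one _)
  have h1 : A.map (algebraMap K R) + live a b x =
      A.map (algebraMap K R) * (1 + (A⁻¹.map (algebraMap K R) * P) * Q) := by
    rw [hPQ, mul_add, mul_one, Matrix.mul_assoc, ← Matrix.mul_assoc (A.map (algebraMap K R)), hinv,
      Matrix.one_mul]
  rw [h1, Matrix.det_mul, Matrix.det_one_add_mul_comm]
  congr 1
  · exact (RingHom.map_det (algebraMap K R) A).symm
  · congr 2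
    ext l l'
    simp only [Matrix.mul_apply, Matrix.of_apply, P, Q, Matrix.map_apply]
    rw [Finset.sum_eq_single (b l)]
    · rw [if_pos rfl, Finset.sum_eq_single (a l')]
      · rw [if_pos rfl, mul_one]
      · intro i _ hi
        rw [if_neg (Ne.symm hi), mul_zero]
      · intro h
        exact absurd (Finset.mem_univ _) h
    · intro j _ hj
      rw [if_neg (Ne.symm hj), zero_mul]
    · intro h
      exact absurd (Finset.mem_univ _) h

/-- a shift which makes the constant part regular -/
theorem exists_shift [CharZero K] (A : Matrix (Fin N) (Fin N) K) (a b : L → Fin N) :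
    (∀ x : L → R, (A.map (algebraMap K R) + live a b x).det = 0) ∨
      ∃ c : L → ℕ, (A + live a b (fun l => (c l : K))).det ≠ 0 := by
  classical
  by_cases h0 : (A.map (MvPolynomial.C : K →+* MvPolynomial L K) +
      live a b (fun l => MvPolynomial.X l)).det = 0
  · left
    intro x
    have h1 := congrArg (MvPolynomial.aeval x : MvPolynomial L K →ₐ[K] R) h0
    rw [map_zero, AlgHom.map_det] at h1
    rw [← h1]
    congr 1
    rw [AlgHom.mapMatrix_apply, Matrix.map_add _ (map_add _)]
    congr 1
    · ext i j
      simp [Matrix.map_apply]
    · have := live_map ((MvPolynomial.aeval x : MvPolynomial L K →ₐ[K] R) : MvPolynomial L K →+* R)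
        a b (fun l => MvPolynomial.X l)
      refine Eq.trans ?_ this.symm
      congr 1
      funext l
      simp
  · right
    by_contra hno
    push Not at hno
    apply h0
    set f := (A.map (MvPolynomial.C : K →+* MvPolynomial L K) +
      live a b (fun l => MvPolynomial.X l)).det with hf
    have hcard : ∀ l : L, MvPolynomial.degreeOf l f < ((Finset.range (f.totalDegree + 1)).image
        (fun a : ℕ => (a : K))).card := by
      intro l
      rw [Finset.card_image_of_injective _ Nat.cast_injective, Finset.card_range]
      exact Nat.lt_succ_of_le (MvPolynomial.degreeOf_le_totalDegree f l)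
    refine MvPolynomial.eq_zero_of_eval_zero_at_prod_finset f (fun _ => (Finset.range
      (f.totalDegree + 1)).image (fun a : ℕ => (a : K))) hcard ?_
    intro x hx
    have hx3 : ∀ v, ∃ a : ℕ, (a : K) = x v := by
      intro v
      have := hx v
      rw [Finset.mem_image] at this
      obtain ⟨a, _, hav⟩ := this
      exact ⟨a, hav⟩
    choose c hc using hx3
    have h1 := hno c
    rw [hf, RingHom.map_det]
    rw [← h1]
    congr 1
    rw [RingHom.mapMatrix_apply, Matrix.map_add _ (map_add _)]
    congr 1
    · ext i j
      simp [Matrix.map_apply]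
    · have := live_map (MvPolynomial.eval x) a b (fun l => MvPolynomial.X l)
      refine this.trans ?_
      congr 1
      funext l
      simp [hc l]

end

end Pool.Agent.J6H27.DT
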