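import Mathlib
import Pool.Agent.J6H27.DT.Basic
import Pool.Agent.J6H27.DT.Det

/-!
# Compression of an expression with determinants and few leaves in a block of variables
-/

set_option autoImplicit false

namespace Pool.Agent.J6H27.DT

open Finset Pool.Agent.J6H27.DT.DExpr

section

variable {F K : Type*} [Field F] [Field K] [Algebra F K] {k : ℕ}

/-- the elements whose gradient is in the span of `s` -/
def ker (D : Fin k → Derivation F K K) (s : Set (Fin k → K)) : Subring K where
  carrier := {x | (fun l => D l x) ∈ Submodule.span K s}
  mul_mem' := by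
    intro x y hx hy
    have h : (fun l => D l (x * y)) = x • (fun l => D l y) + y • (fun l => D l x) := by
      funext l
      simp [Derivation.leibniz]
    change _ ∈ Submodule.span K s
    rw [h]
    exact add_mem (Submodule.smul_mem _ _ hy) (Submodule.smul_mem _ _ hx)
  one_mem' := by
    have h : (fun l => D l (1 : K)) = 0 := by
      funext l
      simp
    change _ ∈ Submodule.span K s
    rw [h]
    exact zero_mem _
  add_mem' := by
    intro x y hx hy
    have h : (fun l => D l (x + y)) = (fun l => D l x) + (fun l => D l y) := by
      funext l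
      simp
    change _ ∈ Submodule.span K s
    rw [h]
    exact add_mem hx hy
  zero_mem' := by
    have h : (fun l => D l (0 : K)) = 0 := by
      funext l
      simp
    change _ ∈ Submodule.span K s
    rw [h]
    exact zero_mem _
  neg_mem' := by
    intro x hx
    have h : (fun l => D l (-x)) = -(fun l => D l x) := by
      funext l
      simp
    change _ ∈ Submodule.span K s
    rw [h]
    exact neg_mem hx

variable (D : Fin k → Derivation F K K)

lemma mem_ker {s : Set (Fin k → K)} {x : K} :
    x ∈ ker D s ↔ (fun l => D l x) ∈ Submodule.span K s := Iff.rfl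

lemma ker_mono {s s' : Set (Fin k → K)} (h : s ⊆ s') : ker D s ≤ ker D s' :=
  fun _ hx => Submodule.span_mono h hx

lemma mem_ker_of_grad {s : Set (Fin k → K)} {x : K} (h : (fun l => D l x) ∈ s) : x ∈ ker D s :=
  Submodule.subset_span h

lemma algebraMap_mem_ker (s : Set (Fin k → K)) (c : F) : algebraMap F K c ∈ ker D s := by
  rw [mem_ker]
  have h : (fun l => D l (algebraMap F K c)) = 0 := by
    funext l
    simp
  rw [h]
  exact zero_mem _

/-- the polynomials with coefficients in `B` -/
noncomputable def coefIn (σ : Type*) (B : Subring K) : Subring (MvPolynomial σ K) :=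
  (MvPolynomial.map (σ := σ) B.subtype).range

variable {σ : Type*}

lemma C_mem {B : Subring K} {a : K} (h : a ∈ B) : (MvPolynomial.C a : MvPolynomial σ K) ∈ coefIn σ B :=
  ⟨MvPolynomial.C ⟨a, h⟩, MvPolynomial.map_C _ _⟩

lemma X_mem {B : Subring K} (i : σ) : (MvPolynomial.X i) ∈ coefIn σ B :=
  ⟨MvPolynomial.X i, MvPolynomial.map_X _ _⟩

lemma coefIn_mono {B B' : Subring K} (h : B ≤ B') : coefIn σ B ≤ coefIn σ B' := by
  rintro _ ⟨p, rfl⟩
  refine ⟨MvPolynomial.map (Subring.inclusion h) p, ?_⟩
  rw [MvPolynomial.map_map]
  rfl

lemma det_mem {R : Type*} [CommRing R] {ι : Type*} [Fintype ι] [DecidableEq ι] (S : Subring R)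
    (M : Matrix ι ι R) (h : ∀ i j, M i j ∈ S) : M.det ∈ S := by
  rw [Matrix.det_apply]
  refine sum_mem fun p _ => ?_
  have h1 : ∏ i, M (p i) i ∈ S := prod_mem fun i _ => h _ _
  rcases Int.units_eq_one_or (Equiv.Perm.sign p) with h2 | h2
  · rw [h2, one_smul]
    exact h1
  · rw [h2, Units.neg_smul, one_smul]
    exact neg_mem h1

/-- the bound for binary gates -/
lemma arith_two {q a b x y : ℕ} (h1 : a + 2 * (q + 2) ≤ 2 * (q + 2) * x)
    (h2 : b + 2 * (q + 2) ≤ 2 * (q + 2) * y) :
    (a + b + 4) + 2 * (q + 2) ≤ 2 * (q + 2) * (x + y) := by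
  have h3 : 2 * (q + 2) * (x + y) = 2 * (q + 2) * x + 2 * (q + 2) * y := by ring
  omega

/-- the bound for determinants -/
lemma arith_many {q m S T r : ℕ} (hm : 2 ≤ m) (h1 : S + m * (2 * (q + 2)) ≤ 2 * (q + 2) * r)
    (h2 : T ≤ m * q) : (S + m + m + T) + 2 * (q + 2) ≤ 2 * (q + 2) * r := by
  have h3 : m + m + m * q + 2 * (q + 2) ≤ m * (2 * (q + 2)) := by nlinarith
  omega

/-- **Compression.** -/
theorem compress [CharZero K] {n : ℕ} (q : ℕ) (J : Fin n → Prop) [DecidablePred J]
    (ρ : Fin n → MvPolynomial σ K)
    (hJ : ∀ i, J i → ∃ s, ρ i = MvPolynomial.X s) (hn : ∀ i, ¬ J i → ∃ a, ρ i = MvPolynomial.C a)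
    (E : DExpr F n) (hq : occ J E ≤ q ∨ OrderLe q E) :
    (occ J E = 0 → ∃ a, ev ρ E = MvPolynomial.C a) ∧
    (1 ≤ occ J E → ∃ (s : Finset (Fin k → K)) (U : MvPolynomial σ K) (α β : K),
      s.card + 2 * (q + 2) ≤ 2 * (q + 2) * occ J E ∧
      U ∈ coefIn σ (ker D (s : Set (Fin k → K))) ∧
      ev ρ E = MvPolynomial.C α * U + MvPolynomial.C β) := by
  classical
  induction E with
  | const c =>
    refine ⟨fun _ => ⟨algebraMap F K c, ?_⟩, fun h => absurd h (by simp [occ])⟩
    simp only [ev]
    rw [IsScalarTower.algebraMap_apply F K (MvPolynomial σ K), MvPolynomial.algebraMap_eq]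
  | var i =>
    constructor
    · intro h
      have hi : ¬ J i := by
        intro hJi
        simp [occ, hJi] at h
      exact hn i hi
    · intro h
      have hi : J i := by
        by_contra hJi
        simp [occ, hJi] at h
      obtain ⟨s, hs⟩ := hJ i hi
      refine ⟨∅, MvPolynomial.X s, 1, 0, by simp [occ, hi], X_mem s, ?_⟩
      simp [ev, hs]
  | add a b iha ihb =>
    have hqa : occ J a ≤ q ∨ OrderLe q a := by
      rcases hq with h | h
      · left; simp only [occ] at h; omega
      · exact Or.inr h.1
    have hqb : occ J b ≤ q ∨ OrderLe q b := by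
      rcases hq with h | h
      · left; simp only [occ] at h; omega
      · exact Or.inr h.2
    have iha := iha hqa
    have ihb := ihb hqb
    refine ⟨fun h => ?_, fun h => ?_⟩
    · simp only [occ] at h
      obtain ⟨x, hx⟩ := iha.1 (by omega)
      obtain ⟨y, hy⟩ := ihb.1 (by omega)
      exact ⟨x + y, by simp only [ev, hx, hy, map_add]⟩
    · by_cases ha : occ J a = 0
      · obtain ⟨x, hx⟩ := iha.1 ha
        obtain ⟨s, U, α, β, h1, h2, h3⟩ := ihb.2 (by simp only [occ] at h; omega)
        refine ⟨s, U, α, β + x, by simp only [occ]; rw [ha, zero_add]; exact h1, h2, ?_⟩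
        simp only [ev, hx, h3, map_add]
        ring
      by_cases hb : occ J b = 0
      · obtain ⟨x, hx⟩ := ihb.1 hb
        obtain ⟨s, U, α, β, h1, h2, h3⟩ := iha.2 (by omega)
        refine ⟨s, U, α, β + x, by simp only [occ]; rw [hb, add_zero]; exact h1, h2, ?_⟩
        simp only [ev, hx, h3, map_add]
        ring
      obtain ⟨s, U, α, β, h1, h2, h3⟩ := iha.2 (by omega)
      obtain ⟨s', U', α', β', h1', h2', h3'⟩ := ihb.2 (by omega)
      refine ⟨s ∪ s' ∪ {fun l => D l α, fun l => D l β, fun l => D l α', fun l => D l β'},
        MvPolynomial.C α * U + MvPolynomial.C β +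
        (MvPolynomial.C α' * U' + MvPolynomial.C β'), 1, 0, ?_, ?_, ?_⟩
      · have h4 := Finset.card_union_le (s ∪ s')
          {fun l => D l α, fun l => D l β, fun l => D l α', fun l => D l β'}
        have h5 := Finset.card_union_le s s'
        have h6 : ({fun l => D l α, fun l => D l β, fun l => D l α', fun l => D l β'} :
          Finset (Fin k → K)).card ≤ 4 := Finset.card_le_four
        have h7 := arith_two h1 h1'
        simp only [occ]
        omega
      · have hs : coefIn σ (ker D (s : Set (Fin k → K))) ≤ coefIn σ (ker D ((s ∪ s' ∪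
            {fun l => D l α, fun l => D l β, fun l => D l α', fun l => D l β'} :
            Finset (Fin k → K)) : Set (Fin k → K))) :=
          coefIn_mono (ker_mono D (by
            intro x hx
            simp only [Finset.coe_union, Set.mem_union]
            exact Or.inl (Or.inl hx)))
        have hs' : coefIn σ (ker D (s' : Set (Fin k → K))) ≤ coefIn σ (ker D ((s ∪ s' ∪
            {fun l => D l α, fun l => D l β, fun l => D l α', fun l => D l β'} :
            Finset (Fin k → K)) : Set (Fin k → K))) :=
          coefIn_mono (ker_mono D (by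
            intro x hx
            simp only [Finset.coe_union, Set.mem_union]
            exact Or.inl (Or.inr hx)))
        have hm : ∀ x : K, (x = α ∨ x = β ∨ x = α' ∨ x = β') → (MvPolynomial.C x : MvPolynomial σ K) ∈
            coefIn σ (ker D ((s ∪ s' ∪ {fun l => D l α, fun l => D l β, fun l => D l α', fun l => D l β'} :
            Finset (Fin k → K)) : Set (Fin k → K))) := by
          intro x hx
          apply C_mem
          apply mem_ker_of_grad
          rw [Finset.mem_coe, Finset.mem_union]
          right
          rcases hx with rfl | rfl | rfl | rfl <;> simp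
        exact add_mem (add_mem (mul_mem (hm α (by simp)) (hs h2)) (hm β (by simp)))
          (add_mem (mul_mem (hm α' (by simp)) (hs' h2')) (hm β' (by simp)))
      · simp only [ev, h3, h3']
        simp
  | sub a b iha ihb =>
    have hqa : occ J a ≤ q ∨ OrderLe q a := by
      rcases hq with h | h
      · left; simp only [occ] at h; omega
      · exact Or.inr h.1
    have hqb : occ J b ≤ q ∨ OrderLe q b := by
      rcases hq with h | h
      · left; simp only [occ] at h; omega
      · exact Or.inr h.2
    have iha := iha hqa
    have ihb := ihb hqb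
    refine ⟨fun h => ?_, fun h => ?_⟩
    · simp only [occ] at h
      obtain ⟨x, hx⟩ := iha.1 (by omega)
      obtain ⟨y, hy⟩ := ihb.1 (by omega)
      exact ⟨x - y, by simp only [ev, hx, hy, map_sub]⟩
    · by_cases ha : occ J a = 0
      · obtain ⟨x, hx⟩ := iha.1 ha
        obtain ⟨s, U, α, β, h1, h2, h3⟩ := ihb.2 (by simp only [occ] at h; omega)
        refine ⟨s, U, -α, x - β, by simp only [occ]; rw [ha, zero_add]; exact h1, h2, ?_⟩
        simp only [ev, hx, h3, map_sub, map_neg]
        ring
      by_cases hb : occ J b = 0
      · obtain ⟨x, hx⟩ := ihb.1 hb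
        obtain ⟨s, U, α, β, h1, h2, h3⟩ := iha.2 (by omega)
        refine ⟨s, U, α, β - x, by simp only [occ]; rw [hb, add_zero]; exact h1, h2, ?_⟩
        simp only [ev, hx, h3, map_sub]
        ring
      obtain ⟨s, U, α, β, h1, h2, h3⟩ := iha.2 (by omega)
      obtain ⟨s', U', α', β', h1', h2', h3'⟩ := ihb.2 (by omega)
      refine ⟨s ∪ s' ∪ {fun l => D l α, fun l => D l β, fun l => D l α', fun l => D l β'},
        MvPolynomial.C α * U + MvPolynomial.C β -
        (MvPolynomial.C α' * U' + MvPolynomial.C β'), 1, 0, ?_, ?_, ?_⟩
      · have h4 := Finset.card_union_le (s ∪ s')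
          {fun l => D l α, fun l => D l β, fun l => D l α', fun l => D l β'}
        have h5 := Finset.card_union_le s s'
        have h6 : ({fun l => D l α, fun l => D l β, fun l => D l α', fun l => D l β'} :
          Finset (Fin k → K)).card ≤ 4 := Finset.card_le_four
        have h7 := arith_two h1 h1'
        simp only [occ]
        omega
      · have hs : coefIn σ (ker D (s : Set (Fin k → K))) ≤ coefIn σ (ker D ((s ∪ s' ∪
            {fun l => D l α, fun l => D l β, fun l => D l α', fun l => D l β'} :
            Finset (Fin k → K)) : Set (Fin k → K))) :=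
          coefIn_mono (ker_mono D (by
            intro x hx
            simp only [Finset.coe_union, Set.mem_union]
            exact Or.inl (Or.inl hx)))
        have hs' : coefIn σ (ker D (s' : Set (Fin k → K))) ≤ coefIn σ (ker D ((s ∪ s' ∪
            {fun l => D l α, fun l => D l β, fun l => D l α', fun l => D l β'} :
            Finset (Fin k → K)) : Set (Fin k → K))) :=
          coefIn_mono (ker_mono D (by
            intro x hx
            simp only [Finset.coe_union, Set.mem_union]
            exact Or.inl (Or.inr hx)))
        have hm : ∀ x : K, (x = α ∨ x = β ∨ x = α' ∨ x = β') → (MvPolynomial.C x : MvPolynomial σ K) ∈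
            coefIn σ (ker D ((s ∪ s' ∪ {fun l => D l α, fun l => D l β, fun l => D l α', fun l => D l β'} :
            Finset (Fin k → K)) : Set (Fin k → K))) := by
          intro x hx
          apply C_mem
          apply mem_ker_of_grad
          rw [Finset.mem_coe, Finset.mem_union]
          right
          rcases hx with rfl | rfl | rfl | rfl <;> simp
        exact sub_mem (add_mem (mul_mem (hm α (by simp)) (hs h2)) (hm β (by simp)))
          (add_mem (mul_mem (hm α' (by simp)) (hs' h2')) (hm β' (by simp)))
      · simp only [ev, h3, h3']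
        simp
  | mul a b iha ihb =>
    have hqa : occ J a ≤ q ∨ OrderLe q a := by
      rcases hq with h | h
      · left; simp only [occ] at h; omega
      · exact Or.inr h.1
    have hqb : occ J b ≤ q ∨ OrderLe q b := by
      rcases hq with h | h
      · left; simp only [occ] at h; omega
      · exact Or.inr h.2
    have iha := iha hqa
    have ihb := ihb hqb
    refine ⟨fun h => ?_, fun h => ?_⟩
    · simp only [occ] at h
      obtain ⟨x, hx⟩ := iha.1 (by omega)
      obtain ⟨y, hy⟩ := ihb.1 (by omega)
      exact ⟨x * y, by simp only [ev, hx, hy, map_mul]⟩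
    · by_cases ha : occ J a = 0
      · obtain ⟨x, hx⟩ := iha.1 ha
        obtain ⟨s, U, α, β, h1, h2, h3⟩ := ihb.2 (by simp only [occ] at h; omega)
        refine ⟨s, U, α * x, β * x, by simp only [occ]; rw [ha, zero_add]; exact h1, h2, ?_⟩
        simp only [ev, hx, h3, map_mul]
        ring
      by_cases hb : occ J b = 0
      · obtain ⟨x, hx⟩ := ihb.1 hb
        obtain ⟨s, U, α, β, h1, h2, h3⟩ := iha.2 (by omega)
        refine ⟨s, U, α * x, β * x, by simp only [occ]; rw [hb, add_zero]; exact h1, h2, ?_⟩
        simp only [ev, hx, h3, map_mul]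
        ring
      obtain ⟨s, U, α, β, h1, h2, h3⟩ := iha.2 (by omega)
      obtain ⟨s', U', α', β', h1', h2', h3'⟩ := ihb.2 (by omega)
      refine ⟨s ∪ s' ∪ {fun l => D l α, fun l => D l β, fun l => D l α', fun l => D l β'},
        (MvPolynomial.C α * U + MvPolynomial.C β) *
        (MvPolynomial.C α' * U' + MvPolynomial.C β'), 1, 0, ?_, ?_, ?_⟩
      · have h4 := Finset.card_union_le (s ∪ s')
          {fun l => D l α, fun l => D l β, fun l => D l α', fun l => D l β'}
        have h5 := Finset.card_union_le s s'
        have h6 : ({fun l => D l α, fun l => D l β, fun l => D l α', fun l => D l β'} :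
          Finset (Fin k → K)).card ≤ 4 := Finset.card_le_four
        have h7 := arith_two h1 h1'
        simp only [occ]
        omega
      · have hs : coefIn σ (ker D (s : Set (Fin k → K))) ≤ coefIn σ (ker D ((s ∪ s' ∪
            {fun l => D l α, fun l => D l β, fun l => D l α', fun l => D l β'} :
            Finset (Fin k → K)) : Set (Fin k → K))) :=
          coefIn_mono (ker_mono D (by
            intro x hx
            simp only [Finset.coe_union, Set.mem_union]
            exact Or.inl (Or.inl hx)))
        have hs' : coefIn σ (ker D (s' : Set (Fin k → K))) ≤ coefIn σ (ker D ((s ∪ s' ∪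
            {fun l => D l α, fun l => D l β, fun l => D l α', fun l => D l β'} :
            Finset (Fin k → K)) : Set (Fin k → K))) :=
          coefIn_mono (ker_mono D (by
            intro x hx
            simp only [Finset.coe_union, Set.mem_union]
            exact Or.inl (Or.inr hx)))
        have hm : ∀ x : K, (x = α ∨ x = β ∨ x = α' ∨ x = β') → (MvPolynomial.C x : MvPolynomial σ K) ∈
            coefIn σ (ker D ((s ∪ s' ∪ {fun l => D l α, fun l => D l β, fun l => D l α', fun l => D l β'} :
            Finset (Fin k → K)) : Set (Fin k → K))) := by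
          intro x hx
          apply C_mem
          apply mem_ker_of_grad
          rw [Finset.mem_coe, Finset.mem_union]
          right
          rcases hx with rfl | rfl | rfl | rfl <;> simp
        exact mul_mem (add_mem (mul_mem (hm α (by simp)) (hs h2)) (hm β (by simp)))
          (add_mem (mul_mem (hm α' (by simp)) (hs' h2')) (hm β' (by simp)))
      · simp only [ev, h3, h3']
        simp
  | det N M ih =>
    have hle : ∀ i j, occ J (M i j) ≤ occ J (DExpr.det N M) := by
      intro i j
      simp only [occ]
      have h1 : occ J (M i j) ≤ ∑ j, occ J (M i j) :=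
        Finset.single_le_sum (f := fun j => occ J (M i j)) (fun _ _ => Nat.zero_le _)
          (Finset.mem_univ j)
      have h2 : ∑ j, occ J (M i j) ≤ ∑ i, ∑ j, occ J (M i j) :=
        Finset.single_le_sum (f := fun i => ∑ j, occ J (M i j)) (fun _ _ => Nat.zero_le _)
          (Finset.mem_univ i)
      exact h1.trans h2
    have hqM : ∀ i j, occ J (M i j) ≤ q ∨ OrderLe q (M i j) := by
      intro i j
      rcases hq with h | h
      · exact Or.inl ((hle i j).trans h)
      · exact Or.inr (h.2 i j)
    have ih := fun i j => ih i j (hqM i j)
    -- the constant entries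
    have hconst : ∀ i j, ∃ a : K, occ J (M i j) = 0 → ev ρ (M i j) = MvPolynomial.C a := by
      intro i j
      by_cases h : occ J (M i j) = 0
      · obtain ⟨a, ha⟩ := (ih i j).1 h
        exact ⟨a, fun _ => ha⟩
      · exact ⟨0, fun h' => absurd h' h⟩
    choose A₀ hA₀ using hconst
    refine ⟨fun h => ?_, fun h1occ => ?_⟩
    · have h0 : ∀ i j, occ J (M i j) = 0 := fun i j => by
        have := hle i j
        omega
      refine ⟨(Matrix.of A₀).det, ?_⟩
      simp only [ev]
      rw [RingHom.map_det]
      congr 1
      ext1 i j
      simp only [Matrix.of_apply, RingHom.mapMatrix_apply, Matrix.map_apply]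
      exact hA₀ i j (h0 i j)
    -- the live entries
    let L := {p : Fin N × Fin N // occ J (M p.1 p.2) ≠ 0}
    have hlive : ∀ p : L, ∃ (s : Finset (Fin k → K)) (U : MvPolynomial σ K) (α β : K),
      s.card + 2 * (q + 2) ≤ 2 * (q + 2) * occ J (M p.1.1 p.1.2) ∧
      U ∈ coefIn σ (ker D (s : Set (Fin k → K))) ∧
      ev ρ (M p.1.1 p.1.2) = MvPolynomial.C α * U + MvPolynomial.C β := fun p =>
      (ih p.1.1 p.1.2).2 (Nat.one_le_iff_ne_zero.2 p.2)
    choose s U α β hs hU hev using hlive
    have hsum : ∑ p : L, occ J (M p.1.1 p.1.2) = occ J (DExpr.det N M) := by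
      simp only [occ]
      rw [← Finset.sum_product' univ univ (fun i j => occ J (M i j)), Finset.univ_product_univ,
        ← Finset.sum_filter_ne_zero (f := fun p : Fin N × Fin N => occ J (M p.1 p.2))]
      exact (Finset.sum_subtype _ (by simp) (fun p : Fin N × Fin N => occ J (M p.1 p.2))).symm
    have hSs : ∑ p : L, (s p).card + Fintype.card L * (2 * (q + 2)) ≤
        2 * (q + 2) * occ J (DExpr.det N M) := by
      rw [← hsum, Finset.mul_sum]
      refine le_trans (le_of_eq ?_) (Finset.sum_le_sum fun p _ => hs p)
      rw [Finset.sum_add_distrib, Finset.sum_const, Finset.card_univ, smul_eq_mul]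
    have hLocc : Fintype.card L ≤ occ J (DExpr.det N M) := by
      rw [← hsum]
      calc Fintype.card L = ∑ _p : L, 1 := by simp
        _ ≤ _ := Finset.sum_le_sum fun p _ => Nat.one_le_iff_ne_zero.2 p.2
    let a : L → Fin N := fun p => p.1.1
    let b : L → Fin N := fun p => p.1.2
    let A : Matrix (Fin N) (Fin N) K := Matrix.of fun i j => if occ J (M i j) = 0 then A₀ i j else 0
    let x : L → MvPolynomial σ K := fun p => MvPolynomial.C (α p) * U p + MvPolynomial.C (β p)
    have hMev : (Matrix.of fun i j => ev ρ (M i j)) =
        A.map (algebraMap K (MvPolynomial σ K)) + live a b x := by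
      ext1 i j
      simp only [Matrix.of_apply, Matrix.add_apply, Matrix.map_apply, live, A]
      by_cases h : occ J (M i j) = 0
      · rw [if_pos h, Finset.sum_eq_zero, add_zero, MvPolynomial.algebraMap_eq]
        · exact hA₀ i j h
        · intro p _
          rw [if_neg]
          rintro ⟨h1, h2⟩
          apply p.2
          change occ J (M (a p) (b p)) = 0
          rw [h1, h2]
          exact h
      · rw [if_neg h, map_zero, zero_add, Finset.sum_eq_single ⟨(i, j), h⟩]
        · rw [if_pos ⟨rfl, rfl⟩]
          exact hev ⟨(i, j), h⟩
        · intro p _ hp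
          rw [if_neg]
          rintro ⟨h1, h2⟩
          apply hp
          exact Subtype.ext (Prod.ext h1 h2)
        · intro h'
          exact absurd (Finset.mem_univ _) h'
    have hval : ev ρ (DExpr.det N M) =
        (A.map (algebraMap K (MvPolynomial σ K)) + live a b x).det := by
      rw [← hMev]
      rfl
    rcases exists_shift (R := MvPolynomial σ K) A a b with h0 | ⟨c, hc⟩
    · refine ⟨∅, 0, 0, 0, ?_, zero_mem _, ?_⟩
      · rw [Finset.card_empty, zero_add]
        exact Nat.le_mul_of_pos_right _ (by omega)
      · rw [hval, h0 x]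
        simp
    let A' : Matrix (Fin N) (Fin N) K := A + live a b (fun l => (c l : K))
    let x' : L → MvPolynomial σ K := fun l => x l - MvPolynomial.C (c l : K)
    let T : L → L → K := fun l l' => A'⁻¹ (b l) (a l')
    have hshift : A.map (algebraMap K (MvPolynomial σ K)) + live a b x =
        A'.map (algebraMap K (MvPolynomial σ K)) + live a b x' := by
      have h1 : A'.map (algebraMap K (MvPolynomial σ K)) = A.map (algebraMap K (MvPolynomial σ K)) +
          live a b (fun l => MvPolynomial.C (c l : K)) := by
        rw [Matrix.map_add _ (map_add _), live_map]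
        rfl
      rw [h1, add_assoc, ← live_add]
      congr 2
      funext l
      simp only [Pi.add_apply, x']
      ring
    have hval2 : ev ρ (DExpr.det N M) = MvPolynomial.C A'.det *
        (1 + Matrix.of fun l l' => x' l * MvPolynomial.C (T l l')).det := by
      rw [hval, hshift]
      exact det_live (R := MvPolynomial σ K) A' hc a b x'
    have hm0 : Fintype.card L ≠ 0 := by
      intro h0
      have := Fintype.card_eq_zero_iff.1 h0
      rw [← hsum, Finset.univ_eq_empty, Finset.sum_empty] at h1occ
      omega
    by_cases hm1 : Fintype.card L = 1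
    · -- one live entry
      obtain ⟨p₀, hp₀⟩ := Fintype.card_eq_one_iff.1 hm1
      let _ : Unique L := ⟨⟨p₀⟩, hp₀⟩
      have hd : (default : L) = p₀ := hp₀ _
      refine ⟨s p₀, U p₀, A'.det * T p₀ p₀ * α p₀,
        A'.det * (1 + (β p₀ - (c p₀ : K)) * T p₀ p₀), ?_, hU p₀, ?_⟩
      · rw [← hsum, Fintype.sum_unique, hd]
        exact hs p₀
      · rw [hval2, Matrix.det_unique (1 + Matrix.of fun l l' => x' l * MvPolynomial.C (T l l')), hd]
        simp only [Matrix.add_apply, Matrix.one_apply_eq, Matrix.of_apply, x', x, map_mul, map_add,
          map_sub, map_one]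
        ring
    have hm2 : 2 ≤ Fintype.card L := by omega
    have hcU : (univ.biUnion s).card ≤ ∑ p : L, (s p).card := Finset.card_biUnion_le
    have hcα : (univ.image fun p : L => (fun l => D l (α p) : Fin k → K)).card ≤ Fintype.card L :=
      Finset.card_image_le
    have hcβ : (univ.image fun p : L => (fun l => D l (β p) : Fin k → K)).card ≤ Fintype.card L :=
      Finset.card_image_le
    -- membership of the common part
    have hcommon : ∀ W : Finset (Fin k → K), univ.biUnion s ⊆ W →
        (univ.image fun p : L => (fun l => D l (α p) : Fin k → K)) ⊆ W →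
        (univ.image fun p : L => (fun l => D l (β p) : Fin k → K)) ⊆ W →
        ∀ p, x p ∈ coefIn σ (ker D (W : Set (Fin k → K))) := by
      intro W h1 h2 h3 p
      have h4 : U p ∈ coefIn σ (ker D (W : Set (Fin k → K))) :=
        coefIn_mono (ker_mono D (by
          intro v hv
          exact Finset.mem_coe.2 (h1 (Finset.mem_biUnion.2 ⟨p, Finset.mem_univ _, hv⟩)))) (hU p)
      have h5 : (MvPolynomial.C (α p) : MvPolynomial σ K) ∈ coefIn σ (ker D (W : Set (Fin k → K))) :=
        C_mem (mem_ker_of_grad D (Finset.mem_coe.2 (h2 (Finset.mem_image.2 ⟨p, Finset.mem_univ _, rfl⟩))))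
      have h6 : (MvPolynomial.C (β p) : MvPolynomial σ K) ∈ coefIn σ (ker D (W : Set (Fin k → K))) :=
        C_mem (mem_ker_of_grad D (Finset.mem_coe.2 (h3 (Finset.mem_image.2 ⟨p, Finset.mem_univ _, rfl⟩))))
      exact add_mem (mul_mem h5 h4) h6
    by_cases hmq : Fintype.card L ≤ q
    · -- few live entries
      let W : Finset (Fin k → K) := univ.biUnion s ∪
        (univ.image fun p : L => (fun l => D l (α p) : Fin k → K)) ∪
        (univ.image fun p : L => (fun l => D l (β p) : Fin k → K)) ∪
        (univ.image fun pp : L × L => (fun l => D l (T pp.1 pp.2) : Fin k → K))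
      refine ⟨W, (1 + Matrix.of fun l l' => x' l * MvPolynomial.C (T l l')).det, A'.det, 0, ?_, ?_, ?_⟩
      · have h1 := Finset.card_union_le (univ.biUnion s ∪
          (univ.image fun p : L => (fun l => D l (α p) : Fin k → K)) ∪
          (univ.image fun p : L => (fun l => D l (β p) : Fin k → K)))
          (univ.image fun pp : L × L => (fun l => D l (T pp.1 pp.2) : Fin k → K))
        have h2 := Finset.card_union_le (univ.biUnion s ∪
          (univ.image fun p : L => (fun l => D l (α p) : Fin k → K)))
          (univ.image fun p : L => (fun l => D l (β p) : Fin k → K))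
        have h3 := Finset.card_union_le (univ.biUnion s)
          (univ.image fun p : L => (fun l => D l (α p) : Fin k → K))
        have h4 : (univ.image fun pp : L × L => (fun l => D l (T pp.1 pp.2) : Fin k → K)).card ≤
            Fintype.card L * Fintype.card L := by
          refine Finset.card_image_le.trans ?_
          rw [Finset.card_univ, Fintype.card_prod]
        have h5 : Fintype.card L * Fintype.card L ≤ Fintype.card L * q := Nat.mul_le_mul_left _ hmq
        have h6 := arith_many hm2 hSs h5
        change W.card + _ ≤ _
        have h7 : W.card ≤ ∑ p : L, (s p).card + Fintype.card L + Fintype.card L +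
            Fintype.card L * Fintype.card L := by
          change (univ.biUnion s ∪
            (univ.image fun p : L => (fun l => D l (α p) : Fin k → K)) ∪
            (univ.image fun p : L => (fun l => D l (β p) : Fin k → K)) ∪
            (univ.image fun pp : L × L => (fun l => D l (T pp.1 pp.2) : Fin k → K))).card ≤ _
          omega
        omega
      · have hx : ∀ p, x p ∈ coefIn σ (ker D (W : Set (Fin k → K))) :=
          hcommon W (fun v hv => by simp only [W, Finset.mem_union]; exact Or.inl (Or.inl (Or.inl hv)))
            (fun v hv => by simp only [W, Finset.mem_union]; exact Or.inl (Or.inl (Or.inr hv)))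
            (fun v hv => by simp only [W, Finset.mem_union]; exact Or.inl (Or.inr hv))
        refine det_mem _ _ fun l l' => ?_
        rw [Matrix.add_apply, Matrix.of_apply]
        refine add_mem ?_ (mul_mem (sub_mem (hx l) ?_) ?_)
        · rw [Matrix.one_apply]
          split_ifs
          · exact one_mem _
          · exact zero_mem _
        · exact C_mem (natCast_mem _ _)
        · refine C_mem (mem_ker_of_grad D (Finset.mem_coe.2 ?_))
          simp only [W, Finset.mem_union]
          exact Or.inr (Finset.mem_image.2 ⟨(l, l'), Finset.mem_univ _, rfl⟩)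
      · rw [hval2, map_zero, add_zero]
    · -- small order
      have hN : N ≤ q := by
        rcases hq with h | h
        · exact absurd (hLocc.trans h) hmq
        · exact h.1
      let W : Finset (Fin k → K) := univ.biUnion s ∪
        (univ.image fun p : L => (fun l => D l (α p) : Fin k → K)) ∪
        (univ.image fun p : L => (fun l => D l (β p) : Fin k → K)) ∪
        (univ.image fun pp : Fin N × Fin N => (fun l => D l (A pp.1 pp.2) : Fin k → K))
      refine ⟨W, (A.map (algebraMap K (MvPolynomial σ K)) + live a b x).det, 1, 0, ?_, ?_, ?_⟩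
      · have h1 := Finset.card_union_le (univ.biUnion s ∪
          (univ.image fun p : L => (fun l => D l (α p) : Fin k → K)) ∪
          (univ.image fun p : L => (fun l => D l (β p) : Fin k → K)))
          (univ.image fun pp : Fin N × Fin N => (fun l => D l (A pp.1 pp.2) : Fin k → K))
        have h2 := Finset.card_union_le (univ.biUnion s ∪
          (univ.image fun p : L => (fun l => D l (α p) : Fin k → K)))
          (univ.image fun p : L => (fun l => D l (β p) : Fin k → K))
        have h3 := Finset.card_union_le (univ.biUnion s)
          (univ.image fun p : L => (fun l => D l (α p) : Fin k → K))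
        have h4 : (univ.image fun pp : Fin N × Fin N => (fun l => D l (A pp.1 pp.2) : Fin k → K)).card ≤
            N * N := by
          refine Finset.card_image_le.trans ?_
          rw [Finset.card_univ, Fintype.card_prod, Fintype.card_fin]
        have h5 : N * N ≤ Fintype.card L * q := Nat.mul_le_mul (by omega) hN
        have h6 := arith_many hm2 hSs h5
        have h7 : W.card ≤ ∑ p : L, (s p).card + Fintype.card L + Fintype.card L + N * N := by
          change (univ.biUnion s ∪
            (univ.image fun p : L => (fun l => D l (α p) : Fin k → K)) ∪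
            (univ.image fun p : L => (fun l => D l (β p) : Fin k → K)) ∪
            (univ.image fun pp : Fin N × Fin N => (fun l => D l (A pp.1 pp.2) : Fin k → K))).card ≤ _
          omega
        omega
      · have hx : ∀ p, x p ∈ coefIn σ (ker D (W : Set (Fin k → K))) :=
          hcommon W (fun v hv => by simp only [W, Finset.mem_union]; exact Or.inl (Or.inl (Or.inl hv)))
            (fun v hv => by simp only [W, Finset.mem_union]; exact Or.inl (Or.inl (Or.inr hv)))
            (fun v hv => by simp only [W, Finset.mem_union]; exact Or.inl (Or.inr hv))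
        refine det_mem _ _ fun i j => ?_
        rw [Matrix.add_apply, Matrix.map_apply]
        refine add_mem ?_ ?_
        · rw [MvPolynomial.algebraMap_eq]
          refine C_mem (mem_ker_of_grad D (Finset.mem_coe.2 ?_))
          simp only [W, Finset.mem_union]
          exact Or.inr (Finset.mem_image.2 ⟨(i, j), Finset.mem_univ _, rfl⟩)
        · simp only [live, Matrix.of_apply]
          refine sum_mem fun p _ => ?_
          split_ifs
          · exact hx p
          · exact zero_mem _
      · rw [hval, map_one, one_mul, map_zero, add_zero]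

end

end Pool.Agent.J6H27.DT
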