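import Mathlib
import Pool.Agent.J6H7.PIT.Ext
import Pool.Agent.J6H27.DT.Comp

/-!
# Replacing one block of variables by the map with the shared seed
-/

set_option autoImplicit false

namespace Pool.Agent.J6H27.DT

open Finset Pool.Agent.J6H27.DT.DExpr Pool.Agent.J6H7.PIT TensorProduct

universe u v

/-- derivations extend to the field of fractions -/
theorem exists_der_frac {F : Type u} {B : Type v} [Field F] [CommRing B] [IsDomain B] [Algebra F B]
    (E : Derivation F B B) : ∃ E' : Derivation F (FractionRing B) (FractionRing B),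
      ∀ b, E' (algebraMap B (FractionRing B) b) = algebraMap B (FractionRing B) (E b) := by
  let L := FractionRing B
  have hfe : Algebra.FormallyEtale B L :=
    Algebra.FormallyEtale.of_isLocalization (nonZeroDivisors B)
  let l0 : Ω[B⁄F] →ₗ[B] L := (Algebra.linearMap B L) ∘ₗ E.liftKaehlerDifferential
  let l : L ⊗[B] Ω[B⁄F] →ₗ[L] L := LinearMap.liftBaseChange L l0
  let e := KaehlerDifferential.tensorKaehlerEquivOfFormallyEtale F B L
  refine ⟨(l ∘ₗ e.symm.toLinearMap).compDer (KaehlerDifferential.D F L), fun c => ?_⟩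
  change l (e.symm (KaehlerDifferential.D F L (algebraMap B L c))) = _
  rw [KaehlerDifferential.tensorKaehlerEquivOfFormallyEtale_symm_D_algebraMap,
    LinearMap.liftBaseChange_tmul, one_smul]
  change algebraMap B L (E.liftKaehlerDifferential (KaehlerDifferential.D F B c)) = _
  rw [Derivation.liftKaehlerDifferential_comp_D]

section

variable {F : Type u} {S : Type v} [Field F] [CommRing S] [IsDomain S] [CharZero S] [Algebra F S]
  {n k : ℕ}

/-- several variables, few leaves, over a field -/
theorem step_field {K : Type v} [Field K] [CharZero K] [Algebra F K] (D' : Fin k → Derivation F K K)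
    (y' : Fin k → K) (hDy' : ∀ l m, D' l (y' m) = if l = m then 1 else 0) (e : Fin n → ℕ)
    (he : ∀ i, 0 < e i) (hinj : Function.Injective e) (q : ℕ) (J : Fin n → Prop) [DecidablePred J]
    (E : DExpr F n) (hq : occ J E ≤ q ∨ OrderLe q E) (h0 : occ J E ≠ 0)
    (a' : Fin n → K) (hE : ev a' E ≠ 0) (hk : (2 * q + 5) * occ J E ≤ k) :
    ev (fun i => if J i then gen y' (e i) else Polynomial.C (a' i)) E ≠ 0 := by
  classical
  -- the variables which occur
  let σ := {i : Fin n // J i ∧ Occurs i E}
  let ρ : Fin n → MvPolynomial σ K := fun i =>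
    if h : J i ∧ Occurs i E then MvPolynomial.X ⟨i, h⟩ else MvPolynomial.C (a' i)
  let J' : Fin n → Prop := fun i => J i ∧ Occurs i E
  have hocc : occ J' E ≤ occ J E := occ_mono E fun i hi => hi.1
  have hocc' : 1 ≤ occ J' E := by
    obtain ⟨i, hi, hi'⟩ := occurs_of_occ E h0
    exact occ_pos E (J := J') ⟨hi, hi'⟩ hi'
  have hcomp := (compress D' q J' ρ (fun i hi => ⟨⟨i, hi⟩, dif_pos hi⟩)
    (fun i hi => ⟨a' i, dif_neg hi⟩) E (hq.imp (fun h => hocc.trans h) id)).2 hocc'
  obtain ⟨s, U, α, β, hs1, hs2, hs3⟩ := hcomp
  set f : MvPolynomial σ K := ev ρ E with hf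
  set s' : Finset (Fin k → K) := s ∪ {fun l => D' l α, fun l => D' l β} with hs'
  have hcard' : s'.card ≤ s.card + 2 := by
    refine (Finset.card_union_le _ _).trans ?_
    have : ({fun l => D' l α, fun l => D' l β} : Finset (Fin k → K)).card ≤ 2 := Finset.card_le_two
    omega
  have hmem : f ∈ coefIn σ (ker D' (s' : Set (Fin k → K))) := by
    rw [hs3]
    have h1 : coefIn σ (ker D' (s : Set (Fin k → K))) ≤ coefIn σ (ker D' (s' : Set (Fin k → K))) :=
      coefIn_mono (ker_mono D' (by
        intro x hx
        rw [hs', Finset.coe_union]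
        exact Or.inl hx))
    have hm : ∀ x : K, (x = α ∨ x = β) → (MvPolynomial.C x : MvPolynomial σ K) ∈
        coefIn σ (ker D' (s' : Set (Fin k → K))) := by
      intro x hx
      apply C_mem
      apply mem_ker_of_grad
      rw [hs', Finset.mem_coe, Finset.mem_union]
      right
      rcases hx with rfl | rfl <;> simp
    exact add_mem (mul_mem (hm α (by simp)) (h1 hs2)) (hm β (by simp))
  obtain ⟨f', hf'⟩ := hmem
  have hf'2 : MvPolynomial.map (algebraMap (ker D' (s' : Set (Fin k → K))) K) f' = f := hf'
  -- it is not zero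
  have hfne : f ≠ 0 := by
    intro h0
    apply hE
    have h1 := map_ev ((MvPolynomial.aeval (fun i : σ => a' i) : MvPolynomial σ K →ₐ[K]
      K).restrictScalars F) ρ E
    have h2 : ev (fun i => ((MvPolynomial.aeval (fun i : σ => a' i) : MvPolynomial σ K →ₐ[K]
        K).restrictScalars F) (ρ i)) E = ev a' E := by
      apply ev_congr
      intro i _
      by_cases h : J i ∧ Occurs i E
      · simp [ρ, dif_pos h]
      · simp [ρ, dif_neg h]
    rw [← h2, ← h1, ← hf, h0, map_zero]
  have hf'ne : f' ≠ 0 := by
    rintro rfl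
    apply hfne
    rw [← hf'2, map_zero]
  -- the shared seed
  have hσ : Fintype.card σ ≤ occ J E := by
    rw [occ_eq_sum J E, Fintype.card_subtype]
    rw [Finset.card_eq_sum_ones]
    calc ∑ x ∈ univ.filter (fun i => J i ∧ Occurs i E), 1
        ≤ ∑ x ∈ univ.filter (fun i => J i ∧ Occurs i E), occ (fun j => j = x) E := by
          apply Finset.sum_le_sum
          intro i hi
          simp only [mem_filter, mem_univ, true_and] at hi
          exact occ_pos E rfl hi.2
      _ ≤ _ := by
          apply Finset.sum_le_sum_of_subset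
          intro i hi
          simp only [mem_filter, mem_univ, true_and] at hi ⊢
          exact hi.1
  have hcount : Fintype.card σ + Fintype.card s' ≤ k := by
    rw [Fintype.card_coe]
    have h1 : s.card + 2 * (q + 2) ≤ 2 * (q + 2) * occ J E :=
      hs1.trans (Nat.mul_le_mul_left _ hocc)
    have h2 : (2 * q + 5) * occ J E = 2 * (q + 2) * occ J E + occ J E := by ring
    omega
  have hgrad : ∀ x ∈ ker D' (s' : Set (Fin k → K)), ∃ c : s' → K, ∀ l,
      (D' l).restrictScalars ℤ x = ∑ b : s', c b * (b : Fin k → K) l := by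
    intro x hx
    rw [mem_ker] at hx
    obtain ⟨c, hc⟩ := (Submodule.mem_span_finset' (s := s')).1 hx
    refine ⟨c, fun l => ?_⟩
    have h1 := congrFun hc l
    rw [Finset.sum_apply] at h1
    exact h1.symm
  have hseed := seed (A := K) (ker D' (s' : Set (Fin k → K))) (σ := σ) (τ := s')
    (fun l => (D' l).restrictScalars ℤ) y' hDy' (fun b l => (b : Fin k → K) l)
    hgrad (fun i => e i) (fun i => he i)
    (fun i j hij => Subtype.ext (hinj hij)) hcount (f'.support.sup (fun m => m.degree)) f'
    (fun m hm => Finset.le_sup (f := fun m => m.degree) hm)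
  have hne : MvPolynomial.aeval (fun i : σ => gen y' (e i)) f' ≠ 0 := fun h => hf'ne (hseed h)
  -- comparison
  have h1 : MvPolynomial.aeval (fun i : σ => gen y' (e i)) f' =
      MvPolynomial.aeval (fun i : σ => gen y' (e i)) f := by
    rw [← hf'2, MvPolynomial.aeval_map_algebraMap]
  rw [h1] at hne
  have h2 := map_ev ((MvPolynomial.aeval (fun i : σ => gen y' (e i)) : MvPolynomial σ K →ₐ[K]
      Polynomial K).restrictScalars F) ρ E
  have h3 : ev (fun i => ((MvPolynomial.aeval (fun i : σ => gen y' (e i)) : MvPolynomial σ K →ₐ[K]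
      Polynomial K).restrictScalars F) (ρ i)) E =
      ev (fun i => if J i then gen y' (e i) else Polynomial.C (a' i)) E := by
    apply ev_congr
    intro i hi
    by_cases h : J i
    · have h' : J i ∧ Occurs i E := ⟨h, hi⟩
      simp [ρ, dif_pos h', h]
    · have h' : ¬ (J i ∧ Occurs i E) := fun h'' => h h''.1
      simp only [ρ, dif_neg h', h, if_false]
      have : ((MvPolynomial.aeval (fun i : σ => gen y' (e i)) : MvPolynomial σ K →ₐ[K]
        Polynomial K).restrictScalars F) (MvPolynomial.C (a' i)) = algebraMap K _ (a' i) :=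
        MvPolynomial.aeval_C _ _
      rw [this]
      rfl
  rw [← h3, ← h2]
  exact hne

/-- several variables, few leaves -/
theorem step_multi (D : Fin k → Derivation F S S) (y : Fin k → S)
    (hDy : ∀ l m, D l (y m) = if l = m then 1 else 0) (e : Fin n → ℕ) (he : ∀ i, 0 < e i)
    (hinj : Function.Injective e) (q : ℕ) (J : Fin n → Prop) [DecidablePred J] (E : DExpr F n)
    (hq : occ J E ≤ q ∨ OrderLe q E)
    (a : Fin n → S) (hE : ev a E ≠ 0) (hk : (2 * q + 5) * occ J E ≤ k) :
    ev (fun i => if J i then gen y (e i) else Polynomial.C (a i)) E ≠ 0 := by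
  classical
  by_cases h0 : occ J E = 0
  · have h1 : ev (fun i => if J i then gen y (e i) else Polynomial.C (a i)) E =
        ev (fun i => (Polynomial.CAlgHom : S →ₐ[S] Polynomial S) (a i)) E := by
      apply ev_congr
      intro i hi
      have hJ : ¬ J i := fun hJ => by
        have := occ_pos E hJ hi
        omega
      simp [hJ]
    rw [h1]
    have h2 := map_ev ((Polynomial.CAlgHom : S →ₐ[S] Polynomial S).restrictScalars F) a E
    intro h3
    apply hE
    have h4 : ((Polynomial.CAlgHom : S →ₐ[S] Polynomial S).restrictScalars F) (ev a E) = 0 :=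
      h2.trans h3
    have h5 : (Polynomial.C (ev a E) : Polynomial S) = 0 := h4
    exact Polynomial.C_eq_zero.1 h5
  -- the field of fractions
  let K := FractionRing S
  have hinjK : Function.Injective (algebraMap S K) := IsFractionRing.injective S K
  have : CharZero K := charZero_of_injective_algebraMap hinjK
  choose D' hD' using fun l => exists_der_frac (D l)
  let y' : Fin k → K := fun l => algebraMap S K (y l)
  let a' : Fin n → K := fun i => algebraMap S K (a i)
  have hDy' : ∀ l m, D' l (y' m) = if l = m then 1 else 0 := by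
    intro l m
    change D' l (algebraMap S K (y m)) = _
    rw [hD' l, hDy l m]
    split_ifs <;> simp
  have hE' : ev a' E ≠ 0 := by
    intro h
    apply hE
    apply hinjK
    have h3 := map_ev (IsScalarTower.toAlgHom F S K) a E
    have h4 : algebraMap S K (ev a E) = ev a' E := h3
    rw [h4, h, map_zero]
  have hmain := step_field (K := K) D' y' hDy' e he hinj q J E hq h0 a' hE' hk
  have h4 := map_ev (Polynomial.mapAlgHom (IsScalarTower.toAlgHom F S K))
    (fun i => if J i then gen y (e i) else Polynomial.C (a i)) E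
  have h5 : ev (fun i => (Polynomial.mapAlgHom (IsScalarTower.toAlgHom F S K))
      (if J i then gen y (e i) else Polynomial.C (a i))) E =
      ev (fun i => if J i then gen y' (e i) else Polynomial.C (a' i)) E := by
    apply ev_congr
    intro i _
    by_cases h : J i
    · rw [if_pos h, if_pos h]
      unfold gen
      rw [map_sum]
      refine Finset.sum_congr rfl fun l _ => ?_
      rw [map_mul, map_pow, Polynomial.coe_mapAlgHom, Polynomial.map_C, Polynomial.map_X]
      rfl
    · rw [if_neg h, if_neg h, Polynomial.coe_mapAlgHom, Polynomial.map_C]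
      rfl
  intro h6
  apply hmain
  rw [h6, map_zero, h5] at h4
  exact h4.symm

/-- one variable, arbitrarily many leaves -/
theorem step_single (D : Fin k → Derivation F S S) (y : Fin k → S)
    (hDy : ∀ l m, D l (y m) = if l = m then 1 else 0) (hk : 2 ≤ k) (e : Fin n → ℕ)
    (he : ∀ i, 0 < e i) (J : Fin n → Prop) [DecidablePred J] (E : DExpr F n)
    (a : Fin n → S) (hE : ev a E ≠ 0) (i₀ : Fin n) (hJ : J i₀) (hi₀ : ∀ i, J i → Occurs i E → i = i₀) :
    ev (fun i => if J i then gen y (e i) else Polynomial.C (a i)) E ≠ 0 := by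
  classical
  let ρ : Fin n → Polynomial S := fun i => if i = i₀ then Polynomial.X else Polynomial.C (a i)
  set f : Polynomial S := ev ρ E with hf
  have hfne : f ≠ 0 := by
    intro h0
    apply hE
    have h1 := map_ev ((Polynomial.aeval (a i₀) : Polynomial S →ₐ[S] S).restrictScalars F) ρ E
    have h2 : ev (fun i => ((Polynomial.aeval (a i₀) : Polynomial S →ₐ[S] S).restrictScalars F)
        (ρ i)) E = ev a E := by
      apply ev_congr
      intro i _
      by_cases h : i = i₀
      · subst h
        simp [ρ]
      · simp [ρ, h]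
    rw [← h2, ← h1, ← hf, h0, map_zero]
  have hg : ∀ c : S, gen y (e i₀) ≠ Polynomial.C c := by
    intro c hc
    have h1 := dc_gen (fun l => (D l).restrictScalars ℤ) y hDy (e i₀) ⟨1, by omega⟩
    rw [hc, dc_C] at h1
    have h2 := congrArg (fun p => Polynomial.coeff p (e i₀)) h1
    simp only [mul_one, Polynomial.coeff_X_pow, if_true, Polynomial.coeff_C] at h2
    have h3 := he i₀
    rw [if_neg (by omega)] at h2
    exact zero_ne_one h2
  have hcomp : f.comp (gen y (e i₀)) ≠ 0 := by
    rw [Ne, Polynomial.comp_eq_zero_iff]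
    rintro (h | ⟨_, h⟩)
    · exact hfne h
    · exact hg _ h
  have h2 := map_ev ((Polynomial.aeval (gen y (e i₀)) : Polynomial S →ₐ[S]
    Polynomial S).restrictScalars F) ρ E
  have h3 : ev (fun i => ((Polynomial.aeval (gen y (e i₀)) : Polynomial S →ₐ[S]
      Polynomial S).restrictScalars F) (ρ i)) E =
      ev (fun i => if J i then gen y (e i) else Polynomial.C (a i)) E := by
    apply ev_congr
    intro i hi
    by_cases h : i = i₀
    · subst h
      simp [ρ, hJ]
    · have hJi : ¬ J i := fun hJi => h (hi₀ i hJi hi)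
      simp only [ρ, h, hJi, if_false]
      have : ((Polynomial.aeval (gen y (e i₀)) : Polynomial S →ₐ[S]
        Polynomial S).restrictScalars F) (Polynomial.C (a i)) = algebraMap S _ (a i) :=
        Polynomial.aeval_C _ _
      rw [this]
      rfl
  rw [← h3, ← h2]
  exact hcomp

end

end Pool.Agent.J6H27.DT
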