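import Mathlib
import Pool.Agent.J6H7.PIT.Chain
import Pool.Agent.J6H27.DT.Step

/-!
# The blocks one after the other
-/

set_option autoImplicit false

namespace Pool.Agent.J6H27.DT

open Finset Pool.Agent.J6H27.DT.DExpr Pool.Agent.J6H7.PIT MvPolynomial

section

variable {F : Type*} [Field F] {n M k : ℕ} [CharZero F]

/-- all blocks -/
theorem chain_blocks (hk : 2 ≤ k) (q : ℕ) (β : Fin n → Fin M) (E : DExpr F n)
    (hβ : ∀ j : Fin M, ((2 * q + 5) * occ (fun i => β i = j) E ≤ k ∧
      (occ (fun i => β i = j) E ≤ q ∨ OrderLe q E)) ∨ ∃ i₀, β i₀ = j ∧ ∀ i, β i = j → i = i₀)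
    (hE : ev (fun i => (X i : MvPolynomial (Fin n) F)) E ≠ 0) (j : ℕ) (hj : j ≤ M) :
    ev (asg F (k := k) β j) E ≠ 0 := by
  classical
  induction j with
  | zero =>
    have h1 : ev (asg F (k := k) β 0) E = rename (fun i : Fin n => (Sum.inr (Sum.inr i) :
        Vars n M k)) (ev (fun i => (X i : MvPolynomial (Fin n) F)) E) := by
      rw [map_ev]
      apply ev_congr
      intro i _
      rw [rename_X]
      unfold asg
      simp
    rw [h1]
    intro h2
    apply hE
    have hinj : Function.Injective (fun i : Fin n => (Sum.inr (Sum.inr i) : Vars n M k)) := by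
      intro a b hab
      simpa using hab
    exact rename_injective _ hinj (h2.trans (map_zero _).symm)
  | succ j ih =>
    have ih' := ih (by omega)
    have hjM : j < M := by omega
    let D : Fin k → Derivation F (MvPolynomial (Vars n M k) F) (MvPolynomial (Vars n M k) F) :=
      fun l => pderiv (Sum.inl l)
    have hDy : ∀ l m, D l (X (Sum.inl m)) = if l = m then 1 else 0 := by
      intro l m
      change pderiv (Sum.inl l) (X (Sum.inl m)) = _
      rw [pderiv_X]
      by_cases h : l = m
      · subst h
        simp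
      · rw [if_neg h, Pi.single_eq_of_ne]
        intro h'
        exact h (Sum.inl_injective h'.symm)
    have key : ev (fun i => if β i = (⟨j, hjM⟩ : Fin M) then
        gen (fun l : Fin k => (X (Sum.inl l) : MvPolynomial (Vars n M k) F)) ((i : ℕ) + 1)
        else Polynomial.C (asg F β j i)) E ≠ 0 := by
      rcases hβ ⟨j, hjM⟩ with ⟨h, h'⟩ | ⟨i₀, h1, h2⟩
      · exact step_multi D _ hDy (fun i => (i : ℕ) + 1) (fun i => Nat.succ_pos _)
          (fun a b hab => Fin.ext (by simpa using hab)) q (fun i => β i = ⟨j, hjM⟩) E h' _ ih' h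
      · exact step_single D _ hDy hk (fun i => (i : ℕ) + 1) (fun i => Nat.succ_pos _)
          (fun i => β i = ⟨j, hjM⟩) E _ ih' i₀ h1 (fun i hi _ => h2 i hi)
    intro h0
    apply key
    have h3 := map_ev (theta F (n := n) (k := k) (⟨j, hjM⟩ : Fin M)) (asg F β (j + 1)) E
    rw [h0, map_zero] at h3
    rw [h3]
    apply ev_congr
    intro i _
    exact (theta_asg F β ⟨j, hjM⟩ i).symm

end

section degree

variable {F : Type*} [Field F] {n : ℕ}

lemma degreeOf_ev {V : Type*} (v : V) (ρ : Fin n → MvPolynomial V F) (d : ℕ)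
    (hd : ∀ i, degreeOf v (ρ i) ≤ d) (E : DExpr F n) :
    degreeOf v (ev ρ E) ≤ occ (fun _ => True) E * d := by
  classical
  induction E with
  | const c =>
    have : ev ρ (DExpr.const c) = C c := rfl
    rw [this, degreeOf_C]
    exact Nat.zero_le _
  | var i =>
    simp only [ev, occ, if_true, one_mul]
    exact hd i
  | add a b iha ihb =>
    simp only [ev, occ, add_mul]
    refine (degreeOf_add_le _ _ _).trans (max_le ?_ ?_)
    · exact iha.trans (Nat.le_add_right _ _)
    · exact ihb.trans (Nat.le_add_left _ _)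
  | sub a b iha ihb =>
    simp only [ev, occ, add_mul]
    rw [sub_eq_add_neg]
    refine (degreeOf_add_le _ _ _).trans (max_le ?_ ?_)
    · exact iha.trans (Nat.le_add_right _ _)
    · rw [show degreeOf v (-(ev ρ b)) = degreeOf v (ev ρ b) by
        unfold degreeOf
        rw [degrees_neg]]
      exact ihb.trans (Nat.le_add_left _ _)
  | mul a b iha ihb =>
    simp only [ev, occ, add_mul]
    exact (degreeOf_mul_le _ _ _).trans (add_le_add iha ihb)
  | det N M ih =>
    simp only [ev, occ]
    rw [Matrix.det_apply]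
    refine (degreeOf_sum_le _ _ _).trans (Finset.sup_le fun σ _ => ?_)
    have hs : degreeOf v (Equiv.Perm.sign σ • ∏ i, Matrix.of (fun i j => ev ρ (M i j)) (σ i) i) ≤
        degreeOf v (∏ i, Matrix.of (fun i j => ev ρ (M i j)) (σ i) i) := by
      rcases Int.units_eq_one_or (Equiv.Perm.sign σ) with h | h
      · rw [h, one_smul]
      · rw [h, Units.neg_smul, one_smul]
        unfold degreeOf
        rw [degrees_neg]
    refine hs.trans ((degreeOf_prod_le _ _ _).trans ?_)
    rw [Finset.sum_mul]
    rw [← Equiv.sum_comp σ (fun i => (∑ j, occ (fun _ => True) (M i j)) * d)]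
    refine Finset.sum_le_sum fun i _ => ?_
    simp only [Matrix.of_apply]
    refine (ih (σ i) i).trans (Nat.mul_le_mul_right _ ?_)
    exact Finset.single_le_sum (f := fun j => occ (fun _ => True) (M (σ i) j))
      (fun _ _ => Nat.zero_le _) (Finset.mem_univ i)

end degree

end Pool.Agent.J6H27.DT
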