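import Mathlib
import Pool.Agent.J6H7.PIT.Hit
import Pool.Agent.J6H27.DT.Chain

/-!
# The choice of the blocks and the hitting set
-/

set_option autoImplicit false

namespace Pool.Agent.J6H27.DT

open Finset Pool.Agent.J6H27.DT.DExpr MvPolynomial

section blocks

variable {F : Type*} {n : ℕ}

/-- the number of the leaves `x_i` -/
def wt (E : DExpr F n) (i : Fin n) : ℕ := occ (fun j => j = i) E

/-- the number of the leaves `x_j` with `j < i` -/
def pre (E : DExpr F n) (i : Fin n) : ℕ := ∑ j ∈ univ.filter (fun j => j < i), wt E j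

/-- the number of the block of `x_i` -/
def bl (E : DExpr F n) (t : ℕ) (i : Fin n) : ℕ :=
  if pre E i + wt E i < (pre E i / t + 1) * t then 2 * (pre E i / t) else 2 * (pre E i / t) + 1

lemma pre_add_wt (E : DExpr F n) {i j : Fin n} (h : i < j) : pre E i + wt E i ≤ pre E j := by
  unfold pre
  have h1 : i ∉ univ.filter (fun l => l < i) := by simp
  rw [add_comm, ← Finset.sum_insert h1]
  apply Finset.sum_le_sum_of_subset
  intro l hl
  simp only [mem_insert, mem_filter, mem_univ, true_and] at hl ⊢
  rcases hl with rfl | hl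
  · exact h
  · exact hl.trans h

lemma pre_add_wt_le (E : DExpr F n) (i : Fin n) : pre E i + wt E i ≤ occ (fun _ => True) E := by
  unfold pre
  have h1 : i ∉ univ.filter (fun l => l < i) := by simp
  rw [add_comm, ← Finset.sum_insert h1, occ_eq_sum (fun _ => True) E]
  apply Finset.sum_le_sum_of_subset
  intro l _
  simp

lemma bl_mono (E : DExpr F n) {t : ℕ} (ht : 0 < t) : Monotone (bl E t) := by
  intro i j hij
  rcases hij.eq_or_lt with rfl | h
  · exact le_rfl
  have h1 := pre_add_wt E h
  unfold bl
  have h2 : pre E i / t ≤ pre E j / t := Nat.div_le_div_right (by omega)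
  by_cases h3 : pre E i + wt E i < (pre E i / t + 1) * t
  · rw [if_pos h3]
    split_ifs <;> omega
  · rw [if_neg h3]
    have h4 : pre E i / t + 1 ≤ pre E j / t := by
      rw [Nat.le_div_iff_mul_le ht]
      omega
    split_ifs <;> omega

lemma bl_lt (E : DExpr F n) {t s : ℕ} (hs : occ (fun _ => True) E ≤ s)
    (i : Fin n) : bl E t i < 2 * (s / t) + 2 := by
  have h1 := pre_add_wt_le E i
  have h2 : pre E i / t ≤ s / t := Nat.div_le_div_right (by omega)
  unfold bl
  split_ifs <;> omega

/-- an even block contains few leaves -/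
lemma occ_even (E : DExpr F n) {t : ℕ} (ht : 0 < t) (q : ℕ) :
    occ (fun i => bl E t i = 2 * q) E < t := by
  classical
  rw [occ_eq_sum]
  by_cases hne : (univ.filter (fun i => bl E t i = 2 * q)).Nonempty
  · set S := univ.filter (fun i => bl E t i = 2 * q) with hS
    obtain ⟨a, ha, hamin⟩ := S.exists_min_image id hne
    obtain ⟨b, hb, hbmax⟩ := S.exists_max_image id hne
    simp only [id] at hamin hbmax
    have key : ∀ i ∈ S, pre E i / t = q ∧ pre E i + wt E i < (q + 1) * t := by
      intro i hi
      rw [hS] at hi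
      simp only [mem_filter, mem_univ, true_and] at hi
      unfold bl at hi
      by_cases h : pre E i + wt E i < (pre E i / t + 1) * t
      · rw [if_pos h] at hi
        have : pre E i / t = q := by omega
        exact ⟨this, by rw [this] at h; exact h⟩
      · rw [if_neg h] at hi
        omega
    have h1 : pre E a + ∑ i ∈ S, wt E i ≤ pre E b + wt E b := by
      unfold pre
      have hb' : b ∉ univ.filter (fun l => l < b) := by simp
      rw [add_comm (∑ j ∈ univ.filter (fun j => j < b), wt E j), ← Finset.sum_insert hb']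
      rw [← Finset.sum_union]
      · apply Finset.sum_le_sum_of_subset
        intro l hl
        simp only [mem_union, mem_insert, mem_filter, mem_univ, true_and] at hl ⊢
        rcases hl with hl | hl
        · have := hbmax a ha
          exact Or.inr (lt_of_lt_of_le hl this)
        · exact (hbmax l hl).eq_or_lt
      · rw [Finset.disjoint_left]
        intro l hl hl'
        simp only [mem_filter, mem_univ, true_and] at hl
        exact absurd (hamin l hl') (not_le.2 hl)
    obtain ⟨h2, _⟩ := key a ha
    obtain ⟨_, h3⟩ := key b hb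
    have h4 : q * t ≤ pre E a := by
      rw [← h2]
      exact Nat.div_mul_le_self _ _
    have h5 : (q + 1) * t = q * t + t := by ring
    have h6 : ∑ i ∈ S, wt E i = ∑ i ∈ S, occ (fun j => j = i) E := rfl
    omega
  · rw [Finset.not_nonempty_iff_eq_empty] at hne
    rw [hne, Finset.sum_empty]
    exact ht

/-- an odd block contains at most one variable -/
lemma odd_unique (E : DExpr F n) {t : ℕ} (ht : 0 < t) (q : ℕ) (i j : Fin n)
    (hi : bl E t i = 2 * q + 1) (hj : bl E t j = 2 * q + 1) : i = j := by
  have key : ∀ i j : Fin n, bl E t i = 2 * q + 1 → bl E t j = 2 * q + 1 → ¬ i < j := by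
    intro i j hi hj hij
    unfold bl at hi hj
    have h1 := pre_add_wt E hij
    by_cases h : pre E i + wt E i < (pre E i / t + 1) * t
    · rw [if_pos h] at hi
      omega
    · rw [if_neg h] at hi
      have h2 : pre E i / t = q := by omega
      have h3 : pre E j / t = q := by
        split_ifs at hj <;> omega
      have h4 : q + 1 ≤ pre E j / t := by
        rw [Nat.le_div_iff_mul_le ht, ← h2]
        omega
      omega
  rcases lt_trichotomy i j with h | h | h
  · exact absurd h (key i j hi hj)
  · exact h
  · exact absurd h (key j i hj hi)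

end blocks

section points

variable {F : Type*} [Field F] [CharZero F] {n : ℕ}

open Pool.Agent.J6H7.PIT (pt blk exists_breakpoints asg big Vars degreeOf_big)

/-- the main result with general parameters: `k` seeds, `m + 1` blocks -/
theorem exists_point (t q s k m : ℕ) (ht : 0 < t) (hk : (2 * q + 5) * t ≤ k)
    (hm : 2 * (s / t) + 1 ≤ m) (E : DExpr F n) (hq : t ≤ q ∨ OrderLe q E)
    (hs : occ (fun _ => True) E ≤ s)
    (hE : ev (fun i => (X i : MvPolynomial (Fin n) F)) E ≠ 0) :
    ∃ (b : Fin m → Fin (n + 1)) (z : Fin (m + 1) → ℕ) (y : Fin k → ℕ),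
      (∀ v, z v ≤ s * (n * k)) ∧ (∀ l, y l ≤ s * (n * k)) ∧
      ev (fun i => ((pt b z y i : ℕ) : F)) E ≠ 0 := by
  classical
  let β : Fin n → Fin (m + 1) := fun i => ⟨bl E t i, by
    have := bl_lt (t := t) E hs i
    omega⟩
  have hmono : Monotone β := fun i j hij => Fin.le_def.2 (bl_mono E ht hij)
  obtain ⟨b, hb⟩ := exists_breakpoints β hmono
  have hβ : ∀ j : Fin (m + 1), ((2 * q + 5) * occ (fun i => β i = j) E ≤ k ∧
      (occ (fun i => β i = j) E ≤ q ∨ OrderLe q E)) ∨ ∃ i₀, β i₀ = j ∧ ∀ i, β i = j → i = i₀ := by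
    intro j
    have hval : ∀ i, β i = j ↔ bl E t i = (j : ℕ) := fun i => Fin.ext_iff
    rcases Nat.even_or_odd' (j : ℕ) with ⟨p, hp | hp⟩
    · left
      have h1 := occ_even E ht p
      have h2 : occ (fun i => β i = j) E ≤ occ (fun i => bl E t i = 2 * p) E :=
        occ_mono E fun i hi => by rw [← hp]; exact (hval i).1 hi
      refine ⟨(Nat.mul_le_mul_left _ (by omega)).trans hk, hq.imp (fun h => by omega) id⟩
    · by_cases h : ∃ i₀, β i₀ = j
      · right
        obtain ⟨i₀, hi₀⟩ := h
        refine ⟨i₀, hi₀, fun i hi => ?_⟩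
        exact odd_unique E ht p i i₀ (by rw [← hp]; exact (hval i).1 hi)
          (by rw [← hp]; exact (hval i₀).1 hi₀)
      · left
        have h1 : occ (fun i => β i = j) E = 0 := by
          rw [occ_eq_sum]
          apply Finset.sum_eq_zero
          intro i hi
          simp only [mem_filter, mem_univ, true_and] at hi
          exact absurd ⟨i, hi⟩ h
        rw [h1]
        exact ⟨Nat.zero_le _, Or.inl (Nat.zero_le _)⟩
  have hk2 : 2 ≤ k := by
    have : 5 * 1 ≤ (2 * q + 5) * t := Nat.mul_le_mul (by omega) ht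
    omega
  have hchain := chain_blocks (F := F) (k := k) hk2 q β E hβ hE (m + 1) le_rfl
  have hasg : asg F (k := k) β (m + 1) = big F β := by
    funext i
    unfold asg
    rw [if_pos (β i).2]
  rw [hasg] at hchain
  -- the grid
  set d : ℕ := s * (n * k) with hd
  have hdeg : ∀ v, degreeOf v (ev (big F (k := k) β) E) ≤ d := fun v =>
    (degreeOf_ev v _ _ (fun i => degreeOf_big β i v) E).trans (Nat.mul_le_mul_right _ hs)
  have hcard : ((Finset.range (d + 1)).image (fun a : ℕ => (a : F))).card = d + 1 := by
    rw [Finset.card_image_of_injective _ Nat.cast_injective, Finset.card_range]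
  have hex : ∃ x : Vars n (m + 1) k → F,
      (∀ v, x v ∈ (Finset.range (d + 1)).image (fun a : ℕ => (a : F))) ∧
      eval x (ev (big F (k := k) β) E) ≠ 0 := by
    by_contra hno
    push Not at hno
    apply hchain
    exact eq_zero_of_eval_zero_at_prod_finset _ (fun _ => (Finset.range (d + 1)).image
      (fun a : ℕ => (a : F))) (fun v => by
        rw [hcard]
        exact Nat.lt_succ_of_le (hdeg v)) hno
  obtain ⟨x, hx1, hx2⟩ := hex
  have hx3 : ∀ v, ∃ a : ℕ, a ≤ d ∧ (a : F) = x v := by
    intro v
    have := hx1 v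
    rw [Finset.mem_image] at this
    obtain ⟨a, ha, hav⟩ := this
    exact ⟨a, Nat.lt_succ_iff.1 (Finset.mem_range.1 ha), hav⟩
  choose a ha1 ha2 using hx3
  refine ⟨b, fun v => a (Sum.inr (Sum.inl v)), fun l => a (Sum.inl l), fun v => ha1 _,
    fun l => ha1 _, ?_⟩
  have h1 := map_ev ((aeval x : MvPolynomial (Vars n (m + 1) k) F →ₐ[F] F))
    (big F (k := k) β) E
  have h2 : ev (fun i => (aeval x : MvPolynomial (Vars n (m + 1) k) F →ₐ[F] F)
      (big F (k := k) β i)) E =
      ev (fun i => ((pt b (fun v => a (Sum.inr (Sum.inl v))) (fun l => a (Sum.inl l)) i : ℕ) : F))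
        E := by
    apply ev_congr
    intro i _
    unfold big pt
    rw [map_sum, Nat.cast_sum]
    refine Finset.sum_congr rfl fun l _ => ?_
    rw [map_mul, map_pow, aeval_X, aeval_X, Nat.cast_mul, Nat.cast_pow, ha2, ha2, hb]
  rw [← h2, ← h1]
  exact hx2

end points

end Pool.Agent.J6H27.DT
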