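import Mathlib
import Pool.Agent.J6H7.PIT.Point
import Pool.Agent.J6H27.DT.Hit

/-!
# The explicit hitting set, indexed by natural numbers
-/

set_option autoImplicit false

namespace Pool.Agent.J6H27.DT

open Finset Pool.Agent.J6H27.DT.DExpr MvPolynomial

open Pool.Agent.J6H7.PIT (dig dig_lt exists_digits pt blk)

/-- the number of the block of the variable number `i`: the number of the breakpoints `≤ i`;
the breakpoints are the digits at the positions `k + m + 1, …, k + 2 m` -/
def blockOf (k m B r i : ℕ) : ℕ := ((range m).filter fun j => dig B r (k + m + 1 + j) ≤ i).card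

/-- the value of the variable number `i`: `∑_{l < k} y_l z ^ ((i + 1) l)`, with the digits
`y_l` at the positions `0, …, k - 1` and the digit `z` at the position `k + blockOf k m B r i` -/
def coord (k m B r i : ℕ) : ℕ :=
  ∑ l ∈ range k, dig B r l * dig B r (k + blockOf k m B r i) ^ ((i + 1) * l)

variable {F : Type*} [Field F] [CharZero F] {n : ℕ}

theorem exists_index (t q s k m B : ℕ) (ht : 0 < t) (hk : (2 * q + 5) * t ≤ k)
    (hm : 2 * (s / t) + 1 ≤ m) (hB1 : s * (n * k) < B) (hB2 : n < B) (E : DExpr F n)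
    (hq : t ≤ q ∨ OrderLe q E) (hs : occ (fun _ => True) E ≤ s)
    (hE : ev (fun i => (X i : MvPolynomial (Fin n) F)) E ≠ 0) :
    ∃ r < B ^ (k + 2 * m + 1), ev (fun i => ((coord k m B r i : ℕ) : F)) E ≠ 0 := by
  classical
  obtain ⟨b, z, y, hz, hy, h⟩ := exists_point t q s k m ht hk hm E hq hs hE
  let f : ℕ → ℕ := fun j =>
    if h1 : j < k then y ⟨j, h1⟩
    else if h2 : j - k < m + 1 then z ⟨j - k, h2⟩
    else if h3 : j - (k + m + 1) < m then b ⟨j - (k + m + 1), h3⟩ else 0
  have hf : ∀ j, j < k + 2 * m + 1 → f j < B := by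
    intro j _
    simp only [f]
    split_ifs with h1 h2 h3
    · have := hy ⟨j, h1⟩; omega
    · have := hz ⟨j - k, h2⟩; omega
    · have := (b ⟨j - (k + m + 1), h3⟩).2; omega
    · omega
  obtain ⟨r, hr, hrd⟩ := exists_digits B (k + 2 * m + 1) f hf
  refine ⟨r, hr, ?_⟩
  have hblk : ∀ i : Fin n, blockOf k m B r i = blk b i := by
    intro i
    unfold blockOf blk
    simp only
    rw [← Finset.card_map (Fin.valEmbedding (n := m))]
    congr 1
    ext j
    simp only [Finset.mem_filter, Finset.mem_range, Finset.mem_map, Finset.mem_univ, true_and,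
      Fin.valEmbedding_apply]
    have hj : ∀ hj : j < m, dig B r (k + m + 1 + j) = b ⟨j, hj⟩ := by
      intro hj
      rw [hrd _ (by omega)]
      simp only [f]
      rw [dif_neg (by omega), dif_neg (by omega), dif_pos (by omega)]
      congr 2
      exact Fin.ext (by simp)
    constructor
    · rintro ⟨h1, h2⟩
      rw [hj h1] at h2
      exact ⟨⟨j, h1⟩, h2, rfl⟩
    · rintro ⟨a, h1, rfl⟩
      exact ⟨a.2, by rw [hj a.2]; exact h1⟩
  have hcoord : ∀ i : Fin n, coord k m B r i = pt b z y i := by
    intro i
    unfold coord pt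
    rw [Finset.sum_range]
    refine Finset.sum_congr rfl fun l _ => ?_
    rw [hblk i, hrd _ (by omega), hrd (k + _) (by
      have := (blk b i).2
      omega)]
    have h1 : f l = y l := by
      simp only [f]
      rw [dif_pos l.2]
    have h2 : f (k + (blk b i : ℕ)) = z (blk b i) := by
      simp only [f]
      have := (blk b i).2
      rw [dif_neg (by omega), dif_pos (by omega)]
      congr 1
      exact Fin.ext (by simp)
    rw [h1, h2]
  have : (fun i : Fin n => ((coord k m B r i : ℕ) : F)) = fun i => ((pt b z y i : ℕ) : F) := by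
    funext i
    rw [hcoord]
  rw [this]
  exact h

lemma coord_le (k m B r i : ℕ) (hB : 0 < B) :
    coord k m B r i ≤ k * (B * B ^ ((i + 1) * k)) := by
  unfold coord
  refine (Finset.sum_le_card_nsmul _ _ (B * B ^ ((i + 1) * k)) fun l hl => ?_).trans ?_
  · have hl' : l < k := Finset.mem_range.1 hl
    refine Nat.mul_le_mul (dig_lt hB).le ?_
    refine (Nat.pow_le_pow_left (dig_lt hB).le _).trans ?_
    exact Nat.pow_le_pow_right hB (Nat.mul_le_mul_left _ hl'.le)
  · rw [Finset.card_range, smul_eq_mul]

end Pool.Agent.J6H27.DT
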